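import Pool.Agent.H93.BL.Targets

/-!
# L6: finiteness of the singular sets of the interval system
-/

set_option autoImplicit false

namespace Pool.Agent.H89.BL.L6

open MeasureTheory Set Pool.Agent.H93.BL

theorem vtx_finite {ι : Type} [Finite ι] (P : Polygon ι) : {w | P.Vtx w}.Finite := by
  have h : {w | P.Vtx w} ⊆ range P.p ∪ range P.q := by
    rintro w ⟨i, h | h⟩
    · exact Or.inl ⟨i, h.symm⟩
    · exact Or.inr ⟨i, h.symm⟩
  exact ((finite_range P.p).union (finite_range P.q)).subset h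

theorem leg_finite {ι : Type} [Finite ι] (P : Polygon ι) (E : Set ι) (C : Set ℂ)
    (hC : C.Finite) : Finite (P.Leg E C) := by
  have h : P.Leg E C ⊆ (univ : Set ι) ×ˢ C := by
    rintro k hk
    exact ⟨mem_univ _, hk.2.1⟩
  exact ((finite_univ.prod hC).subset h).to_subtype

theorem l6 (h1 : T_L1) (h5 : T_L5) : T_L6 := by
  intro ι _ P E C hC
  have hfin := leg_finite P E C hC
  have hV := vtx_finite P
  have hprod : ((univ : Set (P.Leg E C)) ×ˢ {w | P.Vtx w}).Finite := finite_univ.prod hV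
  refine ⟨?_, ?_, hfin⟩
  · apply (hprod.image fun a : P.Leg E C × ℂ => ((a.1, cr a.1.1.2 a.2) : P.Leg E C × ℝ)).subset
    rintro ⟨k, t⟩ ⟨hz, hz1, hz2⟩
    obtain ⟨w, τ, -, -, hw, hvw⟩ := (h5 ι P E C (k, t) hz).1 hz1 hz2
    refine ⟨(k, w), ⟨mem_univ _, hvw⟩, ?_⟩
    have ht : cr k.1.2 (P.lpt E C k t) = t := (h1 ι P E C k).1 t
    have hw' : P.lpt E C k t + (τ : ℂ) * k.1.2 = w := hw
    have e : cr k.1.2 w = t := by
      rw [← hw', cr_add_right, cr_smul_right, cr_self, ht]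
      ring
    exact Prod.ext rfl e
  · apply (hprod.image fun a : P.Leg E C × ℂ => ((a.1, (cr (P.refl a.1.1.1 a.1.1.2) (P.p a.1.1.1) +
      cr a.1.1.2 (P.p a.1.1.1)) - cr (P.refl a.1.1.1 a.1.1.2) a.2) : P.Leg E C × ℝ)).subset
    rintro ⟨k, t⟩ ⟨hz, hz1, hz2⟩
    obtain ⟨w, τ, -, -, hw, hvw⟩ := (h5 ι P E C (k, t) hz).2 hz1 hz2
    refine ⟨(k, w), ⟨mem_univ _, hvw⟩, ?_⟩
    have ht : cr k.1.2 (P.lpt E C k t) = t := (h1 ι P E C k).1 t
    have hw' : P.lpt E C k t + (τ : ℂ) * (- P.refl k.1.1 k.1.2) = w := hw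
    have hl := P.cr_refl_line k.1.1 k.1.2
      ((cr k.1.2 (P.p k.1.1) - t) / ip k.1.2 (P.n k.1.1))
    have hl' : cr (P.refl k.1.1 k.1.2) (P.lpt E C k t) + cr k.1.2 (P.lpt E C k t) =
      cr (P.refl k.1.1 k.1.2) (P.p k.1.1) + cr k.1.2 (P.p k.1.1) := hl
    have e : (cr (P.refl k.1.1 k.1.2) (P.p k.1.1) + cr k.1.2 (P.p k.1.1)) -
        cr (P.refl k.1.1 k.1.2) w = t := by
      rw [← hw', cr_add_right, cr_smul_right, cr_neg_right, cr_self, ← hl', ht]
      ring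
    exact Prod.ext rfl e

end Pool.Agent.H89.BL.L6
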